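import Mathlib

set_option autoImplicit false

namespace Pool.Agent.Q199.FN

universe u

/-- The coefficient vectors `a` of the unit ball of the dual of `ℓ_p^n`:
`∑ a_i t_i ≤ (∑ |t_i|^p)^(1/p)` for all real `t_1, …, t_n`. -/
def Coef (p : ℝ) (n : ℕ) : Set (Fin n → ℝ) :=
  {a | ∀ t : Fin n → ℝ, ∑ i, a i * t i ≤ (∑ i, |t i| ^ p) ^ (1 / p)}

/-- `X` is `p`-convex with constant `1`: the element `z = (∑ |x_i|^p)^(1/p)`, that is, the least
upper bound of the `∑ a_i x_i`, `a` in the unit ball of the dual of `ℓ_p^n`, has norm at most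
`(∑ ‖x_i‖^p)^(1/p)`. -/
def PConvexOne (p : ℝ) (X : Type u) [NormedAddCommGroup X] [Lattice X] [NormedSpace ℝ X] : Prop :=
  ∀ (n : ℕ) (x : Fin n → X) (z : X),
    IsLUB {w : X | ∃ a ∈ Coef p n, w = ∑ i, a i • x i} z → ‖z‖ ≤ (∑ i, ‖x i‖ ^ p) ^ (1 / p)

/-- The bounded linear map `T` is a lattice homomorphism. -/
def IsLatHom {X Y : Type*} [NormedAddCommGroup X] [Lattice X] [NormedSpace ℝ X]
    [NormedAddCommGroup Y] [Lattice Y] [NormedSpace ℝ Y] (T : X →L[ℝ] Y) : Prop :=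
  ∀ a b : X, T (a ⊔ b) = T a ⊔ T b

/-- The Banach lattice `L` with the linear isometry `δ : E → L` is the free `p`-convex Banach
lattice over `E`: it is `p`-convex with constant `1`, and for every `p`-convex Banach lattice `X`
with constant `1` and every bounded linear `T : E → X` there is a unique lattice homomorphism
`S : L → X` with `S ∘ δ = T`, and `‖S‖ = ‖T‖`. -/
structure IsFree (p : ℝ) (E L : Type u) [NormedAddCommGroup E] [NormedSpace ℝ E]
    [NormedAddCommGroup L] [Lattice L] [HasSolidNorm L] [IsOrderedAddMonoid L] [NormedSpace ℝ L]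
    [CompleteSpace L] (δ : E →ₗᵢ[ℝ] L) : Prop where
  pconvex : PConvexOne p L
  lift : ∀ (X : Type u) [NormedAddCommGroup X] [Lattice X] [HasSolidNorm X]
    [IsOrderedAddMonoid X] [NormedSpace ℝ X] [CompleteSpace X], PConvexOne p X →
    ∀ T : E →L[ℝ] X, ∃ S : L →L[ℝ] X, IsLatHom S ∧ (∀ x, S (δ x) = T x) ∧ ‖S‖ = ‖T‖ ∧
      ∀ S' : L →L[ℝ] X, IsLatHom S' → (∀ x, S' (δ x) = T x) → S' = S

/-- The bounded functional `φ` attains its norm on the closed unit ball. -/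
def Attains {Y : Type*} [NormedAddCommGroup Y] [NormedSpace ℝ Y] (φ : Y →L[ℝ] ℝ) : Prop :=
  ∃ y : Y, ‖y‖ ≤ 1 ∧ φ y = ‖φ‖

end Pool.Agent.Q199.FN
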