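import Mathlib

set_option autoImplicit false

namespace Pool.Agent.Q199.FN

open scoped BoundedContinuousFunction

universe u

section

variable {E : Type u} [NormedAddCommGroup E] [NormedSpace ℝ E]

/-- the closed unit ball -/
abbrev UB (E : Type u) [NormedAddCommGroup E] : Type u := {x : E // ‖x‖ ≤ 1}

/-- `x ↦ |z x|^p` on the unit ball -/
noncomputable def absP (p : ℝ) (hp : 1 ≤ p) (z : E →L[ℝ] ℝ) : UB E →ᵇ ℝ :=
  BoundedContinuousFunction.ofNormedAddCommGroup (fun x : UB E => |z x.1| ^ p)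
    (((z.continuous.comp continuous_subtype_val).abs).rpow_const (fun _ => Or.inr (by linarith)))
    (‖z‖ ^ p) (by
      intro x
      rw [Real.norm_eq_abs, abs_of_nonneg (Real.rpow_nonneg (abs_nonneg _) _)]
      apply Real.rpow_le_rpow (abs_nonneg _) _ (by linarith)
      calc |z x.1| ≤ ‖z‖ * ‖x.1‖ := z.le_opNorm _
        _ ≤ ‖z‖ * 1 := by gcongr; exact x.2
        _ = ‖z‖ := mul_one _)

theorem absP_apply (p : ℝ) (hp : 1 ≤ p) (z : E →L[ℝ] ℝ) (x : UB E) :
    absP p hp z x = |z x.1| ^ p := rfl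

/-- restriction of `z` to the unit ball -/
noncomputable def lin (z : E →L[ℝ] ℝ) : UB E →ᵇ ℝ :=
  BoundedContinuousFunction.ofNormedAddCommGroup (fun x : UB E => z x.1)
    (z.continuous.comp continuous_subtype_val) ‖z‖ (by
      intro x
      calc ‖z x.1‖ ≤ ‖z‖ * ‖x.1‖ := z.le_opNorm _
        _ ≤ ‖z‖ * 1 := by gcongr; exact x.2
        _ = ‖z‖ := mul_one _)

theorem lin_apply (z : E →L[ℝ] ℝ) (x : UB E) : lin z x = z x.1 := rfl

/-- the constant function -/
noncomputable def co (c : ℝ) : UB E →ᵇ ℝ := BoundedContinuousFunction.const _ c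

theorem co_apply (c : ℝ) (x : UB E) : (co c : UB E →ᵇ ℝ) x = c := rfl

/-- Pietsch domination. -/
theorem dom (p : ℝ) (hp : 1 ≤ p) (G : (E →L[ℝ] ℝ) → ℝ)
    (hG : ∀ (l : List (E →L[ℝ] ℝ)) (C : ℝ),
      (∀ x : E, ‖x‖ ≤ 1 → (l.map (fun z => |z x| ^ p)).sum ≤ C) →
      (l.map (fun z => |G z| ^ p)).sum ≤ C)
    (hom : ∀ (c : ℝ) (z : E →L[ℝ] ℝ), 0 ≤ c → G (c • z) = c * G z) :
    ∃ Λ : (UB E →ᵇ ℝ) →L[ℝ] ℝ, (∀ v : UB E →ᵇ ℝ, (∀ x, 0 ≤ v x) → 0 ≤ Λ v) ∧ Λ (co 1) = 1 ∧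
      ∀ z, |G z| ^ p ≤ Λ (absP p hp z) := by
  have hp0 : 0 < p := by linarith
  let D : (E →L[ℝ] ℝ) → (UB E →ᵇ ℝ) := fun z => absP p hp z - co (|G z| ^ p)
  let P : Set (UB E →ᵇ ℝ) := {v | ∃ ε : ℝ, 0 < ε ∧ ∀ x, v x ≤ -ε}
  let Q : Set (UB E →ᵇ ℝ) := {v | ∃ l : List (E →L[ℝ] ℝ), v = (l.map D).sum}
  have hDs : ∀ (c : ℝ) (z : E →L[ℝ] ℝ), 0 ≤ c → c • D z = D (c ^ (1 / p) • z) := by
    intro c z hc
    ext x
    have h1 : (c ^ (1 / p)) ^ p = c := by
      rw [← Real.rpow_mul hc, one_div_mul_cancel hp0.ne', Real.rpow_one]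
    have h2 : 0 ≤ c ^ (1 / p) := Real.rpow_nonneg hc _
    show c * (|z x.1| ^ p - |G z| ^ p) = |c ^ (1 / p) * z x.1| ^ p - |G (c ^ (1 / p) • z)| ^ p
    rw [hom _ _ h2, abs_mul, abs_mul, abs_of_nonneg h2, Real.mul_rpow h2 (abs_nonneg _),
      Real.mul_rpow h2 (abs_nonneg _), h1]
    ring
  have hQs : ∀ (c : ℝ) (v : UB E →ᵇ ℝ), 0 ≤ c → v ∈ Q → c • v ∈ Q := by
    rintro c v hc ⟨l, rfl⟩
    refine ⟨l.map (fun z => c ^ (1 / p) • z), ?_⟩
    induction l with
    | nil => simp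
    | cons a l ih =>
        simp only [List.map_cons, List.sum_cons, smul_add, ih, hDs c a hc]
  have hQa : ∀ v w : UB E →ᵇ ℝ, v ∈ Q → w ∈ Q → v + w ∈ Q := by
    rintro v w ⟨l, rfl⟩ ⟨m, rfl⟩
    exact ⟨l ++ m, by rw [List.map_append, List.sum_append]⟩
  have hQ0 : (0 : UB E →ᵇ ℝ) ∈ Q := ⟨[], rfl⟩
  have hQc : Convex ℝ Q := by
    intro v hv w hw a b ha hb _
    exact hQa _ _ (hQs a v ha hv) (hQs b w hb hw)
  have hPc : Convex ℝ P := by
    rintro v ⟨ε, hε, hv⟩ w ⟨η, hη, hw⟩ a b ha hb hab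
    refine ⟨min ε η, lt_min hε hη, fun x => ?_⟩
    show a * v x + b * w x ≤ -min ε η
    have h1 := hv x
    have h2 := hw x
    have h3 : a * v x ≤ a * (-min ε η) := by
      apply mul_le_mul_of_nonneg_left _ ha
      exact h1.trans (neg_le_neg (min_le_left _ _))
    have h4 : b * w x ≤ b * (-min ε η) := by
      apply mul_le_mul_of_nonneg_left _ hb
      exact h2.trans (neg_le_neg (min_le_right _ _))
    calc a * v x + b * w x ≤ a * (-min ε η) + b * (-min ε η) := add_le_add h3 h4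
      _ = (a + b) * (-min ε η) := by ring
      _ = -min ε η := by rw [hab, one_mul]
  have hPo : IsOpen P := by
    rw [Metric.isOpen_iff]
    rintro v ⟨ε, hε, hv⟩
    refine ⟨ε / 2, by positivity, ?_⟩
    intro w hw
    refine ⟨ε / 2, by positivity, fun x => ?_⟩
    rw [Metric.mem_ball] at hw
    have h1 : dist (w x) (v x) < ε / 2 := lt_of_le_of_lt (BoundedContinuousFunction.dist_coe_le_dist x) hw
    rw [Real.dist_eq] at h1
    have h2 := abs_lt.mp h1
    have h3 := hv x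
    linarith [h2.2]
  have hsum : ∀ (l : List (E →L[ℝ] ℝ)) (x : UB E), (l.map D).sum x =
      (l.map (fun z => |z x.1| ^ p)).sum - (l.map (fun z => |G z| ^ p)).sum := by
    intro l x
    induction l with
    | nil => simp
    | cons a l ih =>
        simp only [List.map_cons, List.sum_cons]
        have h1 : (D a + (l.map D).sum) x = D a x + (l.map D).sum x := rfl
        have h2 : D a x = |a x.1| ^ p - |G a| ^ p := rfl
        rw [h1, ih, h2]
        ring
  have hdis : Disjoint P Q := by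
    rw [Set.disjoint_left]
    rintro v ⟨ε, hε, hv⟩ ⟨l, rfl⟩
    have h1 := hG l ((l.map (fun z => |G z| ^ p)).sum - ε) (by
      intro x hx
      have h2 := hv ⟨x, hx⟩
      rw [hsum] at h2
      linarith)
    linarith
  obtain ⟨f, c, hf1, hf2⟩ := geometric_hahn_banach_open hPc hPo hQc hdis
  have hc0 : c ≤ 0 := by
    have := hf2 0 hQ0
    rwa [map_zero] at this
  have hfQ : ∀ v ∈ Q, 0 ≤ f v := by
    intro v hv
    by_contra hneg
    push Not at hneg
    have h1 : 0 ≤ (c - 1) / f v := by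
      apply div_nonneg_of_nonpos <;> linarith
    have h2 := hf2 _ (hQs _ v h1 hv)
    rw [map_smul, smul_eq_mul, div_mul_cancel₀ _ hneg.ne] at h2
    linarith
  have hf1' : ∀ ε : ℝ, 0 < ε → ∀ v : UB E →ᵇ ℝ, (∀ x, 0 ≤ v x) → 0 < f v + ε * f (co 1) := by
    intro ε hε v hv
    have h1 : -v - ε • co 1 ∈ P := by
      refine ⟨ε, hε, fun x => ?_⟩
      show -(v x) - ε * 1 ≤ -ε
      linarith [hv x]
    have h2 := hf1 _ h1
    rw [map_sub, map_neg, map_smul, smul_eq_mul] at h2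
    linarith
  have hf0 : 0 < f (co 1) := by
    have := hf1' 1 one_pos 0 (fun x => le_refl _)
    rw [map_zero] at this
    linarith
  refine ⟨(f (co 1))⁻¹ • f, ?_, ?_, ?_⟩
  · intro v hv
    show 0 ≤ (f (co 1))⁻¹ * f v
    apply mul_nonneg (by positivity)
    apply le_of_forall_pos_le_add
    intro η hη
    have h1 := hf1' (η / f (co 1)) (by positivity) v hv
    rw [div_mul_cancel₀ _ hf0.ne'] at h1
    exact h1.le
  · show (f (co 1))⁻¹ * f (co 1) = 1
    exact inv_mul_cancel₀ hf0.ne'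
  · intro z
    have h1 := hfQ (D z) ⟨[z], by simp⟩
    have h2 : f (D z) = f (absP p hp z) - |G z| ^ p * f (co 1) := by
      have h3 : D z = absP p hp z - (|G z| ^ p) • co 1 := by
        ext x
        show |z x.1| ^ p - |G z| ^ p = |z x.1| ^ p - |G z| ^ p * 1
        ring
      rw [h3, map_sub, map_smul, smul_eq_mul]
    show |G z| ^ p ≤ (f (co 1))⁻¹ * f (absP p hp z)
    rw [inv_mul_eq_div, le_div_iff₀ hf0]
    linarith

end

end Pool.Agent.Q199.FN
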