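import Mathlib

set_option autoImplicit false

namespace Pool.Agent.Q199.FN

universe u v w

theorem near_span {V : Type u} [NormedAddCommGroup V] [NormedSpace ℝ V] {ι : Type v}
    (X0 : V →L[ℝ] ℝ) (I : Finset ι) (g : ι → V →L[ℝ] ℝ) (η : ℝ) (hη : 0 ≤ η)
    (h : ∀ y : V, ‖y‖ ≤ 1 → (∀ i ∈ I, g i y = 0) → |X0 y| ≤ η) :
    ∃ c : ι → ℝ, ‖X0 - ∑ i ∈ I, c i • g i‖ ≤ η := by
  classical
  let M : Submodule ℝ V :=
    { carrier := {y | ∀ x ∈ I, g x y = 0}
      add_mem' := fun {a b} ha hb x hx => by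
        show g x (a + b) = 0
        rw [map_add, ha x hx, hb x hx, add_zero]
      zero_mem' := fun x _ => map_zero _
      smul_mem' := fun c a ha x hx => by
        show g x (c • a) = 0
        rw [map_smul, ha x hx, smul_zero] }
  let XM : StrongDual ℝ M := X0.comp M.subtypeL
  have hXM : ‖XM‖ ≤ η := by
    apply ContinuousLinearMap.opNorm_le_of_unit_norm hη
    intro y hy
    exact h y.1 (le_of_eq hy) (fun x hx => y.2 x hx)
  obtain ⟨e, he1, he2⟩ := exists_extension_norm_eq M XM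
  have hvan : (⨅ i : I, LinearMap.ker ((g i.1).toLinearMap)) ≤
      LinearMap.ker ((X0 - e : V →L[ℝ] ℝ).toLinearMap) := by
    intro y hy
    rw [Submodule.mem_iInf] at hy
    have hyM : y ∈ M := fun x hx => hy ⟨x, hx⟩
    have h1 := he1 ⟨y, hyM⟩
    show X0 y - e y = 0
    have h2 : e y = X0 y := h1
    rw [h2, sub_self]
  have hspan := mem_span_of_iInf_ker_le_ker hvan
  rw [Submodule.mem_span_range_iff_exists_fun] at hspan
  obtain ⟨c, hc⟩ := hspan
  refine ⟨fun i => if hi : i ∈ I then c ⟨i, hi⟩ else 0, ?_⟩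
  have h3 : X0 - ∑ i ∈ I, (if hi : i ∈ I then c ⟨i, hi⟩ else 0) • g i = e := by
    ext y
    have h4 := congrArg (fun T => T y) hc
    simp only [LinearMap.sum_apply, LinearMap.smul_apply, smul_eq_mul] at h4
    have h5 : (∑ i ∈ I, (if hi : i ∈ I then c ⟨i, hi⟩ else 0) • g i) y =
        ∑ i ∈ I, (if hi : i ∈ I then c ⟨i, hi⟩ else 0) * g i y := by
      rw [ContinuousLinearMap.sum_apply]
      rfl
    have h6 : ∑ i ∈ I, (if hi : i ∈ I then c ⟨i, hi⟩ else 0) * g i y =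
        ∑ i : I, c i * g i.1 y := by
      rw [← Finset.sum_coe_sort I (fun i => (if hi : i ∈ I then c ⟨i, hi⟩ else 0) * g i y)]
      apply Finset.sum_congr rfl
      rintro ⟨i, hi⟩ _
      simp [hi]
    show X0 y - (∑ i ∈ I, (if hi : i ∈ I then c ⟨i, hi⟩ else 0) • g i) y = e y
    rw [h5, h6]
    have h7 : ∑ i : I, c i * g i.1 y = X0 y - e y := h4
    rw [h7]
    ring
  rw [h3, he2]
  exact hXM

theorem mem_range_of_near {E : Type u} {W : Type v} [NormedAddCommGroup E] [NormedSpace ℝ E]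
    [CompleteSpace E] [NormedAddCommGroup W] [NormedSpace ℝ W] (J : E →ₗᵢ[ℝ] W) (X : W)
    (h : ∀ η : ℝ, 0 < η → ∃ x, ‖X - J x‖ ≤ η) : ∃ x, J x = X := by
  have hc : IsClosed (Set.range J) := J.isometry.isClosedEmbedding.isClosed_range
  have h2 : X ∈ closure (Set.range J) := by
    rw [Metric.mem_closure_iff]
    intro η hη
    obtain ⟨x, hx⟩ := h (η / 2) (by positivity)
    exact ⟨J x, ⟨x, rfl⟩, by rw [dist_eq_norm]; linarith⟩
  rw [hc.closure_eq] at h2
  exact h2

end Pool.Agent.Q199.FN
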