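import Pool.Agent.Q199.FN.Targets

set_option autoImplicit false

namespace Pool.Agent.Q199.FN

open scoped BoundedContinuousFunction

universe u

/-- constants as bounded continuous functions on a point -/
noncomputable def cst : ℝ →L[ℝ] (PUnit.{u+1} →ᵇ ℝ) :=
  LinearMap.mkContinuous
    { toFun := fun c => BoundedContinuousFunction.const _ c
      map_add' := fun a b => by ext; rfl
      map_smul' := fun a b => by ext; rfl } 1 (fun c => by
        rw [one_mul]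
        exact BoundedContinuousFunction.norm_const_le c)

theorem cst_apply (c : ℝ) (k : PUnit.{u+1}) : cst c k = c := rfl

theorem cst_norm : ‖(cst : ℝ →L[ℝ] (PUnit.{u+1} →ᵇ ℝ))‖ ≤ 1 :=
  LinearMap.mkContinuous_norm_le _ zero_le_one _

/-- evaluation at a point -/
noncomputable def ev {K : Type u} [TopologicalSpace K] (k : K) : (K →ᵇ ℝ) →L[ℝ] ℝ :=
  LinearMap.mkContinuous
    { toFun := fun g => g k
      map_add' := fun a b => rfl
      map_smul' := fun a b => rfl } 1 (fun c => by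
        rw [one_mul]
        exact c.norm_coe_le_norm k)

theorem ev_apply {K : Type u} [TopologicalSpace K] (k : K) (g : K →ᵇ ℝ) : ev k g = g k := rfl

theorem ev_norm {K : Type u} [TopologicalSpace K] (k : K) : ‖ev k‖ ≤ 1 :=
  LinearMap.mkContinuous_norm_le _ zero_le_one _

section

variable {p : ℝ} {E L : Type u} [NormedAddCommGroup E] [NormedSpace ℝ E]
  [NormedAddCommGroup L] [Lattice L] [HasSolidNorm L] [IsOrderedAddMonoid L] [NormedSpace ℝ L]
  [CompleteSpace L] {δ : E →ₗᵢ[ℝ] L}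

theorem IsFree.ext (F : IsFree p E L δ) (hp : 1 ≤ p) (φ ψ : L →L[ℝ] ℝ) (hφ : IsLatHom φ)
    (hψ : IsLatHom ψ) (h : ∀ x, φ (δ x) = ψ (δ x)) : φ = ψ := by
  obtain ⟨S, -, -, -, hS⟩ := F.lift (PUnit.{u+1} →ᵇ ℝ) (pconvex_bcf p hp _)
    (cst.comp (ψ.comp δ.toContinuousLinearMap))
  have h1 : ∀ χ : L →L[ℝ] ℝ, IsLatHom χ → IsLatHom ((cst : ℝ →L[ℝ] (PUnit.{u+1} →ᵇ ℝ)).comp χ) := by
    intro χ hχ a b
    ext k
    show χ (a ⊔ b) = χ a ⊔ χ b
    exact hχ a b
  have h2 := hS (cst.comp φ) (h1 φ hφ) (fun x => by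
    ext k
    show φ (δ x) = ψ (δ x)
    exact h x)
  have h3 := hS (cst.comp ψ) (h1 ψ hψ) (fun x => rfl)
  ext f
  have h4 : (cst : ℝ →L[ℝ] (PUnit.{u+1} →ᵇ ℝ)).comp φ = cst.comp ψ := h2.trans h3.symm
  have h5 := congrArg (fun T => T f PUnit.unit) h4
  exact h5

theorem IsFree.exists_hat (F : IsFree p E L δ) (hp : 1 ≤ p) (z : E →L[ℝ] ℝ) :
    ∃ φ : L →L[ℝ] ℝ, IsLatHom φ ∧ (∀ x, φ (δ x) = z x) ∧ ‖φ‖ ≤ ‖z‖ := by
  obtain ⟨S, h1, h2, h3, -⟩ := F.lift (PUnit.{u+1} →ᵇ ℝ) (pconvex_bcf p hp _) (cst.comp z)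
  refine ⟨(ev PUnit.unit).comp S, ?_, ?_, ?_⟩
  · intro a b
    show (S (a ⊔ b)) PUnit.unit = (S a) PUnit.unit ⊔ (S b) PUnit.unit
    rw [h1 a b]
    rfl
  · intro x
    show (S (δ x)) PUnit.unit = z x
    rw [h2 x]
    rfl
  · calc ‖(ev PUnit.unit).comp S‖ ≤ ‖(ev PUnit.unit : (PUnit.{u+1} →ᵇ ℝ) →L[ℝ] ℝ)‖ * ‖S‖ :=
          ContinuousLinearMap.opNorm_comp_le _ _
      _ ≤ 1 * ‖S‖ := by gcongr; exact ev_norm _
      _ = ‖cst.comp z‖ := by rw [one_mul, h3]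
      _ ≤ ‖(cst : ℝ →L[ℝ] (PUnit.{u+1} →ᵇ ℝ))‖ * ‖z‖ := ContinuousLinearMap.opNorm_comp_le _ _
      _ ≤ 1 * ‖z‖ := by gcongr; exact cst_norm
      _ = ‖z‖ := one_mul _

/-- the lattice homomorphism extending `z` -/
noncomputable def IsFree.hat (F : IsFree p E L δ) (hp : 1 ≤ p) (z : E →L[ℝ] ℝ) : L →L[ℝ] ℝ :=
  (F.exists_hat hp z).choose

theorem IsFree.hat_lat (F : IsFree p E L δ) (hp : 1 ≤ p) (z : E →L[ℝ] ℝ) :
    IsLatHom (F.hat hp z) := (F.exists_hat hp z).choose_spec.1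

theorem IsFree.hat_del (F : IsFree p E L δ) (hp : 1 ≤ p) (z : E →L[ℝ] ℝ) (x : E) :
    F.hat hp z (δ x) = z x := (F.exists_hat hp z).choose_spec.2.1 x

theorem IsFree.hat_norm (F : IsFree p E L δ) (hp : 1 ≤ p) (z : E →L[ℝ] ℝ) :
    ‖F.hat hp z‖ ≤ ‖z‖ := (F.exists_hat hp z).choose_spec.2.2

theorem IsFree.hat_unique (F : IsFree p E L δ) (hp : 1 ≤ p) (z : E →L[ℝ] ℝ) (φ : L →L[ℝ] ℝ)
    (h : IsLatHom φ) (h2 : ∀ x, φ (δ x) = z x) : φ = F.hat hp z :=
  F.ext hp φ _ h (F.hat_lat hp z) (fun x => by rw [h2, F.hat_del])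

theorem IsFree.hat_smul (F : IsFree p E L δ) (hp : 1 ≤ p) (z : E →L[ℝ] ℝ) (c : ℝ) (hc : 0 ≤ c)
    (f : L) : F.hat hp (c • z) f = c * F.hat hp z f := by
  have h := F.hat_unique hp (c • z) (c • F.hat hp z) (by
    intro a b
    show c * F.hat hp z (a ⊔ b) = c * F.hat hp z a ⊔ c * F.hat hp z b
    rw [F.hat_lat hp z a b, mul_max_of_nonneg _ _ hc]) (by
    intro x
    show c * F.hat hp z (δ x) = c * z x
    rw [F.hat_del])
  rw [← h]
  rfl

/-- coordinate functional -/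
noncomputable def coL {q : ENNReal} [Fact (1 ≤ q)] {ι : Type u} [Fintype ι] (hq : q ≠ ⊤) (j : ι) :
    LN q ι →L[ℝ] ℝ :=
  LinearMap.mkContinuous
    { toFun := fun g => g.co j
      map_add' := fun a b => rfl
      map_smul' := fun a b => rfl } 1 (fun c => by
        rw [one_mul]
        have h1 : 1 ≤ q := Fact.out
        have h0 : 0 < q.toReal :=
          ENNReal.toReal_pos (by intro h; rw [h] at h1; simp at h1) hq
        rw [LN.norm_eq hq]
        show |c.co j| ≤ _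
        have h2 : |c.co j| ^ q.toReal ≤ ∑ i, |c.co i| ^ q.toReal :=
          Finset.single_le_sum (f := fun i => |c.co i| ^ q.toReal)
            (fun i _ => Real.rpow_nonneg (abs_nonneg _) _) (Finset.mem_univ j)
        calc |c.co j| = (|c.co j| ^ q.toReal) ^ (1 / q.toReal) := by
              rw [← Real.rpow_mul (abs_nonneg _), mul_one_div_cancel h0.ne', Real.rpow_one]
          _ ≤ _ := Real.rpow_le_rpow (Real.rpow_nonneg (abs_nonneg _) _) h2 (by positivity))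

/-- The strong `p`-summing inequality. -/
theorem IsFree.family (F : IsFree p E L δ) (hp : 1 ≤ p) (n : ℕ) (z : Fin n → E →L[ℝ] ℝ) (C : ℝ)
    (hC : ∀ x : E, ‖x‖ ≤ 1 → ∑ i, |z i x| ^ p ≤ C) (f : L) :
    ∑ i, |F.hat hp (z i) f| ^ p ≤ C * ‖f‖ ^ p := by
  have hp0 : 0 < p := by linarith
  have hC0 : 0 ≤ C := (Finset.sum_nonneg fun i _ => Real.rpow_nonneg (abs_nonneg _) _).trans
    (hC 0 (by simp))
  haveI : Fact (1 ≤ ENNReal.ofReal p) := ⟨by
    rw [← ENNReal.ofReal_one]; exact ENNReal.ofReal_le_ofReal hp⟩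
  have hq : ENNReal.ofReal p ≠ ⊤ := ENNReal.ofReal_ne_top
  have hpr : (ENNReal.ofReal p).toReal = p := ENNReal.toReal_ofReal hp0.le
  haveI := LN.solid (p := ENNReal.ofReal p) (ι := ULift.{u} (Fin n)) hq
  have hcv := LN.pconvex (p := ENNReal.ofReal p) (ι := ULift.{u} (Fin n)) hq
  rw [hpr] at hcv
  have hnorm : ∀ y : LN (ENNReal.ofReal p) (ULift.{u} (Fin n)),
      ‖y‖ = (∑ i : Fin n, |y.co ⟨i⟩| ^ p) ^ (1 / p) := by
    intro y
    rw [LN.norm_eq hq, hpr]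
    congr 1
    exact (Equiv.ulift.{u, 0} (α := Fin n)).sum_comp (fun i => |y.co ⟨i⟩| ^ p)
  let T0 : E →ₗ[ℝ] LN (ENNReal.ofReal p) (ULift.{u} (Fin n)) :=
    { toFun := fun x => LN.mk (fun j => z j.down x)
      map_add' := fun a b => by
        apply LN.co_inj
        funext j
        show z j.down (a + b) = z j.down a + z j.down b
        exact map_add _ _ _
      map_smul' := fun a b => by
        apply LN.co_inj
        funext j
        show z j.down (a • b) = a • z j.down b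
        exact map_smul _ _ _ }
  have hT0 : ∀ x, ‖T0 x‖ ≤ C ^ (1 / p) * ‖x‖ := by
    intro x
    rcases eq_or_ne x 0 with rfl | hx
    · simp
    have hx0 : 0 < ‖x‖ := norm_pos_iff.mpr hx
    rw [hnorm]
    have h1 := hC (‖x‖⁻¹ • x) (by rw [norm_smul, norm_inv, norm_norm, inv_mul_cancel₀ hx0.ne'])
    have h2 : ∀ i, |z i x| ^ p = ‖x‖ ^ p * |z i (‖x‖⁻¹ • x)| ^ p := by
      intro i
      rw [map_smul, smul_eq_mul, abs_mul, abs_of_pos (inv_pos.mpr hx0),
        ← Real.mul_rpow hx0.le (by positivity), ← mul_assoc, mul_inv_cancel₀ hx0.ne', one_mul]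
    have h3 : ∑ i : Fin n, |(T0 x).co ⟨i⟩| ^ p ≤ ‖x‖ ^ p * C := by
      have h4 : ∑ i : Fin n, |(T0 x).co ⟨i⟩| ^ p = ∑ i, |z i x| ^ p := rfl
      rw [h4, Finset.sum_congr rfl (fun i _ => h2 i), ← Finset.mul_sum]
      gcongr
    calc (∑ i : Fin n, |(T0 x).co ⟨i⟩| ^ p) ^ (1 / p) ≤ (‖x‖ ^ p * C) ^ (1 / p) :=
          Real.rpow_le_rpow (Finset.sum_nonneg fun i _ => Real.rpow_nonneg (abs_nonneg _) _) h3
            (by positivity)
      _ = C ^ (1 / p) * ‖x‖ := by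
          rw [Real.mul_rpow (by positivity) hC0, ← Real.rpow_mul hx0.le,
            mul_one_div_cancel hp0.ne', Real.rpow_one, mul_comm]
  let T : E →L[ℝ] LN (ENNReal.ofReal p) (ULift.{u} (Fin n)) := T0.mkContinuous (C ^ (1 / p)) hT0
  obtain ⟨S, hS1, hS2, hS3, -⟩ := F.lift _ hcv T
  have hT1 : ‖T‖ ≤ C ^ (1 / p) := LinearMap.mkContinuous_norm_le _ (by positivity) _
  have hco : ∀ i : Fin n, (S f).co ⟨i⟩ = F.hat hp (z i) f := by
    intro i
    have h := F.hat_unique hp (z i) ((coL hq ⟨i⟩).comp S) (by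
      intro a b
      show (S (a ⊔ b)).co ⟨i⟩ = (S a).co ⟨i⟩ ⊔ (S b).co ⟨i⟩
      rw [hS1 a b]
      rfl) (by
      intro x
      show (S (δ x)).co ⟨i⟩ = z i x
      rw [hS2 x]
      rfl)
    rw [← h]
    rfl
  have h5 : ‖S f‖ ≤ C ^ (1 / p) * ‖f‖ := by
    calc ‖S f‖ ≤ ‖S‖ * ‖f‖ := S.le_opNorm f
      _ ≤ C ^ (1 / p) * ‖f‖ := by rw [hS3]; gcongr
  have h6 : ∑ i, |F.hat hp (z i) f| ^ p = ‖S f‖ ^ p := by
    rw [hnorm, ← Real.rpow_mul (Finset.sum_nonneg fun i _ => Real.rpow_nonneg (abs_nonneg _) _),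
      one_div_mul_cancel hp0.ne', Real.rpow_one]
    exact Finset.sum_congr rfl (fun i _ => by rw [hco])
  rw [h6]
  calc ‖S f‖ ^ p ≤ (C ^ (1 / p) * ‖f‖) ^ p := Real.rpow_le_rpow (norm_nonneg _) h5 hp0.le
    _ = C * ‖f‖ ^ p := by
        rw [Real.mul_rpow (by positivity) (norm_nonneg _), ← Real.rpow_mul hC0,
          one_div_mul_cancel hp0.ne', Real.rpow_one]

/-- the ball of radius two of the dual, with the topology of pointwise convergence -/
def Ball2 (E : Type u) [NormedAddCommGroup E] [NormedSpace ℝ E] : Type u :=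
  {z : E → ℝ // ∃ g : E →L[ℝ] ℝ, ‖g‖ ≤ 2 ∧ ∀ x, g x = z x}

instance : TopologicalSpace (Ball2 E) := inferInstanceAs (TopologicalSpace (Subtype _))

/-- Weak star continuity on bounded sets. -/
theorem IsFree.cont (F : IsFree p E L δ) (hp : 1 ≤ p) (f : L) (z : E →L[ℝ] ℝ) (hz : ‖z‖ ≤ 1)
    (ε : ℝ) (hε : 0 < ε) : ∃ I : Finset E, ∀ y : E →L[ℝ] ℝ, ‖y‖ ≤ 1 → (∀ x ∈ I, y x = 0) →
      |F.hat hp (z + y) f - F.hat hp z f| ≤ ε := by
  let T0 : E →ₗ[ℝ] (Ball2 E →ᵇ ℝ) :=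
    { toFun := fun x => BoundedContinuousFunction.ofNormedAddCommGroup
        (fun w : Ball2 E => w.1 x) ((continuous_apply x).comp continuous_subtype_val) (2 * ‖x‖) (by
          rintro ⟨w, g, hg, hw⟩
          show ‖w x‖ ≤ _
          rw [← hw x]
          exact (g.le_opNorm x).trans (by gcongr))
      map_add' := fun a b => by
        ext w
        obtain ⟨w, g, hg, hw⟩ := w
        show w (a + b) = w a + w b
        rw [← hw, ← hw, ← hw, map_add]
      map_smul' := fun a b => by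
        ext w
        obtain ⟨w, g, hg, hw⟩ := w
        show w (a • b) = a * w b
        rw [← hw, ← hw, map_smul, smul_eq_mul] }
  have hT0 : ∀ x, ‖T0 x‖ ≤ 2 * ‖x‖ := by
    intro x
    rw [BoundedContinuousFunction.norm_le (by positivity)]
    rintro ⟨w, g, hg, hw⟩
    show ‖w x‖ ≤ _
    rw [← hw x]
    exact (g.le_opNorm x).trans (by gcongr)
  obtain ⟨S, hS1, hS2, -, -⟩ := F.lift _ (pconvex_bcf p hp (Ball2 E)) (T0.mkContinuous 2 hT0)
  have hS : ∀ (g : E →L[ℝ] ℝ) (hg : ‖g‖ ≤ 2),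
      F.hat hp g f = (S f) ⟨fun x => g x, g, hg, fun _ => rfl⟩ := by
    intro g hg
    have h := F.hat_unique hp g ((ev (⟨fun x => g x, g, hg, fun _ => rfl⟩ : Ball2 E)).comp S) (by
      intro a b
      show (S (a ⊔ b)) _ = (S a) _ ⊔ (S b) _
      rw [hS1 a b]
      rfl) (by
      intro x
      show (S (δ x)) _ = g x
      rw [hS2 x]
      rfl)
    rw [← h]
    rfl
  let z0 : Ball2 E := ⟨fun x => z x, z, hz.trans (by norm_num), fun _ => rfl⟩
  have hc : ContinuousAt (fun w => (S f) w) z0 := (S f).continuous.continuousAt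
  have h1 : {w : Ball2 E | |(S f) w - (S f) z0| < ε} ∈ nhds z0 := by
    have := Metric.continuousAt_iff'.mp hc ε hε
    filter_upwards [this] with w hw
    rwa [Real.dist_eq] at hw
  have h1' : nhds z0 = Filter.comap (fun w : Ball2 E => w.1) (nhds z0.1) :=
    nhds_subtype_eq_comap
  rw [h1'] at h1
  obtain ⟨U, hU, hU2⟩ := Filter.mem_comap.mp h1
  rw [nhds_pi, Filter.mem_pi] at hU
  obtain ⟨I, hI, t, ht, hIt⟩ := hU
  refine ⟨hI.toFinset, ?_⟩
  intro y hy hyI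
  have h2 : ‖z + y‖ ≤ 2 := (norm_add_le _ _).trans (by linarith)
  rw [hS (z + y) h2, hS z (hz.trans (by norm_num))]
  have h3 : (⟨fun x => (z + y) x, z + y, h2, fun _ => rfl⟩ : Ball2 E) ∈
      (fun w : Ball2 E => w.1) ⁻¹' U := by
    apply hIt
    intro x hx
    have h4 : y x = 0 := hyI x (by simpa using hx)
    show (z + y) x ∈ t x
    have h5 : (z + y) x = z0.1 x := by
      show z x + y x = z x
      rw [h4, add_zero]
    rw [h5]
    exact mem_of_mem_nhds (ht x)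
  exact le_of_lt (hU2 h3)

end

end Pool.Agent.Q199.FN
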