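import Pool.Agent.Q199.FN.Hat
import Pool.Agent.Q199.FN.Dom
import Pool.Agent.Q199.FN.Gen

set_option autoImplicit false

namespace Pool.Agent.Q199.FN

open scoped BoundedContinuousFunction

universe u

theorem ptw (p : ℝ) (hp : 1 ≤ p) (u v t : ℝ) (hu : |u| ≤ 1) (hv : |v| ≤ 1) (ht : |t| ≤ 1 / p) :
    |u + t * v| ^ p ≤ 1 + p * t * (u * v) + p ^ 2 * t ^ 2 + 6 ^ p * (1 - |u| ^ p) := by
  have hp0 : 0 < p := by linarith
  have h1p : 1 / p ≤ 1 := by rw [div_le_one hp0]; exact hp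
  have ht1 : |t| ≤ 1 := ht.trans h1p
  have huv : |u * v| ≤ 1 := by rw [abs_mul]; exact mul_le_one₀ hu (abs_nonneg _) hv
  have hs : |t * (u * v)| ≤ 1 / p := by
    rw [abs_mul]
    calc |t| * |u * v| ≤ |t| * 1 := by gcongr
      _ ≤ 1 / p := by rw [mul_one]; exact ht
  set s := t * (u * v) with hsdef
  have hs1 : |s| ≤ 1 := hs.trans h1p
  have hB0 : 0 ≤ 1 + s := by linarith [(abs_le.mp hs1).1]
  have hB2 : 1 + s ≤ 2 := by linarith [(abs_le.mp hs1).2]
  have hA0 : 0 ≤ |u + t * v| := abs_nonneg _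
  have htv : |t * v| ≤ 1 := by rw [abs_mul]; exact mul_le_one₀ ht1 (abs_nonneg _) hv
  have hA2 : |u + t * v| ≤ 2 := (abs_add_le _ _).trans (by linarith)
  have hu0 := abs_nonneg u
  have hA1 : |u| * |u + t * v| ≤ (1 + s) + 2 * (1 - |u|) := by
    rw [← abs_mul]
    have h1 : u * (u + t * v) = (1 + s) - (1 - |u| ^ 2) := by
      rw [sq_abs, hsdef]; ring
    have h2 : 0 ≤ 1 - |u| ^ 2 := by nlinarith
    have h3 : 1 - |u| ^ 2 ≤ 2 * (1 - |u|) := by nlinarith
    rw [h1]
    calc |(1 + s) - (1 - |u| ^ 2)| ≤ |1 + s| + |1 - |u| ^ 2| := abs_sub _ _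
      _ = (1 + s) + (1 - |u| ^ 2) := by rw [abs_of_nonneg hB0, abs_of_nonneg h2]
      _ ≤ _ := by linarith
  have hAB : |u + t * v| ≤ (1 + s) + 4 * (1 - |u|) := by
    have h1 : |u + t * v| = |u| * |u + t * v| + (1 - |u|) * |u + t * v| := by ring
    have h2 : (1 - |u|) * |u + t * v| ≤ (1 - |u|) * 2 := by
      apply mul_le_mul_of_nonneg_left hA2; linarith
    linarith
  set d := 1 - |u| with hd
  have hd0 : 0 ≤ d := by linarith
  have hd1 : d ≤ 1 := by linarith
  have hconv := (convexOn_rpow hp).2 (Set.mem_Ici.mpr hB0)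
    (Set.mem_Ici.mpr (by linarith : (0 : ℝ) ≤ (1 + s) + 4)) (by linarith : (0 : ℝ) ≤ 1 - d) hd0
    (by ring)
  simp only [smul_eq_mul] at hconv
  have h4 : (1 - d) * (1 + s) + d * ((1 + s) + 4) = (1 + s) + 4 * d := by ring
  rw [h4] at hconv
  have h5 : |u + t * v| ^ p ≤ ((1 + s) + 4 * d) ^ p := Real.rpow_le_rpow hA0 hAB hp0.le
  have h6 : ((1 + s) + 4) ^ p ≤ 6 ^ p :=
    Real.rpow_le_rpow (by linarith) (by linarith) hp0.le
  have h7 : (1 - d) * (1 + s) ^ p ≤ (1 + s) ^ p := by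
    have := Real.rpow_nonneg hB0 p
    nlinarith
  have h8 : |u| ^ p ≤ |u| := by
    calc |u| ^ p ≤ |u| ^ (1 : ℝ) := Real.rpow_le_rpow_of_exponent_ge' hu0 hu zero_le_one hp
      _ = |u| := Real.rpow_one _
  have h9 : d * ((1 + s) + 4) ^ p ≤ 6 ^ p * (1 - |u| ^ p) := by
    have h10 : (0 : ℝ) < 6 ^ p := by positivity
    calc d * ((1 + s) + 4) ^ p ≤ d * 6 ^ p := by gcongr
      _ = 6 ^ p * d := mul_comm _ _
      _ ≤ 6 ^ p * (1 - |u| ^ p) := by
          apply mul_le_mul_of_nonneg_left _ h10.le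
          linarith
  have h11 : (1 + s) ^ p ≤ 1 + p * s + p ^ 2 * t ^ 2 := by
    have h12 : (1 + s) ^ p ≤ Real.exp (s * p) := by
      rw [Real.exp_mul]
      apply Real.rpow_le_rpow hB0 _ hp0.le
      linarith [Real.add_one_le_exp s]
    have h13 : |s * p| ≤ 1 := by
      rw [abs_mul, abs_of_pos hp0]
      calc |s| * p ≤ 1 / p * p := by gcongr
        _ = 1 := by field_simp
    have h14 := Real.abs_exp_sub_one_sub_id_le h13
    have h15 := (abs_le.mp h14).2
    have h16 : (s * p) ^ 2 ≤ p ^ 2 * t ^ 2 := by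
      have h17 : s ^ 2 ≤ t ^ 2 := by
        rw [hsdef, mul_pow]
        have h18 : (u * v) ^ 2 ≤ 1 := by
          rw [← sq_abs]; exact pow_le_one₀ (abs_nonneg _) huv
        nlinarith [sq_nonneg t]
      nlinarith [sq_nonneg p]
    nlinarith
  have h19 : p * t * (u * v) = p * s := by rw [hsdef]; ring
  rw [h19]
  linarith

section

variable {p : ℝ} {E L : Type u} [NormedAddCommGroup E] [NormedSpace ℝ E]
  [NormedAddCommGroup L] [Lattice L] [HasSolidNorm L] [IsOrderedAddMonoid L] [NormedSpace ℝ L]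
  [CompleteSpace L] {δ : E →ₗᵢ[ℝ] L}

/-- The main step, for functionals of norm one. -/
theorem core [CompleteSpace E] (F : IsFree p E L δ) (hp : 1 ≤ p) (xs : E →L[ℝ] ℝ) (hxs : ‖xs‖ ≤ 1)
    (f : L) (hf : ‖f‖ ≤ 1) (hval : F.hat hp xs f = 1) : ∃ x : E, ‖x‖ ≤ 1 ∧ xs x = 1 := by
  have hp0 : 0 < p := by linarith
  have h1p : 1 / p ≤ 1 := by rw [div_le_one hp0]; exact hp
  obtain ⟨Λ, hpos, hone, hdom⟩ := dom p hp (fun z => F.hat hp z f) (by
    intro l C hC
    have h1 := F.family hp l.length (fun i => l.get i) C (by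
      intro x hx
      refine le_trans (le_of_eq ?_) (hC x hx)
      rw [← List.sum_ofFn]
      congr 1
      apply List.ext_get
      · simp
      · intro n h1 h2; simp) f
    have h2 : ‖f‖ ^ p ≤ 1 := Real.rpow_le_one (norm_nonneg _) hf hp0.le
    have hC0 : 0 ≤ C := by
      refine le_trans (le_of_eq ?_) (hC 0 (by simp))
      have : (fun z : E →L[ℝ] ℝ => |z 0| ^ p) = fun _ => 0 := by
        funext z; rw [map_zero, abs_zero, Real.zero_rpow hp0.ne']
      rw [this]; simp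
    have h3 : (l.map (fun z => |F.hat hp z f| ^ p)).sum =
        ∑ i : Fin l.length, |F.hat hp (l.get i) f| ^ p := by
      rw [← List.sum_ofFn]
      congr 1
      apply List.ext_get
      · simp
      · intro n h1 h2; simp
    rw [h3]
    calc _ ≤ C * ‖f‖ ^ p := h1
      _ ≤ C * 1 := by gcongr
      _ = C := mul_one C) (fun c z hc => F.hat_smul hp z c hc f)
  have hmono : ∀ v w : UB E →ᵇ ℝ, (∀ x, v x ≤ w x) → Λ v ≤ Λ w := by
    intro v w h
    have := hpos (w - v) (fun x => by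
      show 0 ≤ w x - v x
      linarith [h x])
    rw [map_sub] at this
    linarith
  have hb : ∀ (z : E →L[ℝ] ℝ), ‖z‖ ≤ 1 → ∀ x : UB E, |z x.1| ≤ 1 := by
    intro z hz x
    calc |z x.1| ≤ ‖z‖ * ‖x.1‖ := z.le_opNorm _
      _ ≤ 1 * 1 := mul_le_mul hz x.2 (norm_nonneg _) zero_le_one
      _ = 1 := mul_one 1
  have hu : ∀ x : UB E, |xs x.1| ≤ 1 := hb xs hxs
  -- the mass of `1 - |xs|^p` is zero
  have hz1 : Λ (absP p hp xs) = 1 := by
    apply le_antisymm
    · have h1 : Λ (absP p hp xs) ≤ Λ (co 1) := by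
        apply hmono
        intro x
        rw [absP_apply, co_apply]
        exact Real.rpow_le_one (abs_nonneg _) (hu x) hp0.le
      exact h1.trans (le_of_eq hone)
    · have h := hdom xs
      simp only [hval, abs_one, Real.one_rpow] at h
      exact h
  -- the barycentre
  let X0l : (E →L[ℝ] ℝ) →ₗ[ℝ] ℝ :=
    { toFun := fun y => Λ (lin xs * lin y)
      map_add' := fun a b => by
        rw [← map_add]
        congr 1
        ext x
        show xs x.1 * (a x.1 + b x.1) = xs x.1 * a x.1 + xs x.1 * b x.1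
        ring
      map_smul' := fun c a => by
        show Λ (lin xs * lin (c • a)) = c * Λ (lin xs * lin a)
        have h : lin xs * lin (c • a) = c • (lin xs * lin a) := by
          ext x
          show xs x.1 * (c * a x.1) = c * (xs x.1 * a x.1)
          ring
        rw [h, map_smul, smul_eq_mul] }
  have hX0b : ∀ y : E →L[ℝ] ℝ, ‖X0l y‖ ≤ 1 * ‖y‖ := by
    intro y
    rw [one_mul]
    have h0 : ∀ x : UB E, |xs x.1 * y x.1| ≤ ‖y‖ := by
      intro x
      rw [abs_mul]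
      calc |xs x.1| * |y x.1| ≤ 1 * ‖y‖ := by
            apply mul_le_mul (hu x) _ (abs_nonneg _) zero_le_one
            calc |y x.1| ≤ ‖y‖ * ‖x.1‖ := y.le_opNorm _
              _ ≤ ‖y‖ * 1 := by gcongr; exact x.2
              _ = ‖y‖ := mul_one _
        _ = ‖y‖ := one_mul _
    have hco : Λ (‖y‖ • co 1) = ‖y‖ := by rw [map_smul, hone, smul_eq_mul, mul_one]
    show |Λ (lin xs * lin y)| ≤ ‖y‖
    rw [abs_le]
    constructor
    · have h2 := hmono (-(‖y‖ • co 1)) (lin xs * lin y) (fun x => by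
        show -(‖y‖ * 1) ≤ xs x.1 * y x.1
        linarith [(abs_le.mp (h0 x)).1])
      rw [map_neg, hco] at h2
      exact h2
    · have h2 := hmono (lin xs * lin y) (‖y‖ • co 1) (fun x => by
        show xs x.1 * y x.1 ≤ ‖y‖ * 1
        linarith [(abs_le.mp (h0 x)).2])
      rw [hco] at h2
      exact h2
  let X0 : (E →L[ℝ] ℝ) →L[ℝ] ℝ := X0l.mkContinuous 1 hX0b
  have hX0n : ‖X0‖ ≤ 1 := LinearMap.mkContinuous_norm_le _ zero_le_one _
  have hX0 : ∀ y, X0 y = Λ (lin xs * lin y) := fun y => rfl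
  have hX0x : 1 ≤ X0 xs := by
    rw [hX0]
    have h1 : Λ ((2 : ℝ) • absP p hp xs - co 1) ≤ Λ (lin xs * lin xs) := by
      apply hmono
      intro x
      show 2 * |xs x.1| ^ p - 1 ≤ xs x.1 * xs x.1
      have h2 := hu x
      have h3 : |xs x.1| ^ p ≤ |xs x.1| := by
        calc |xs x.1| ^ p ≤ |xs x.1| ^ (1 : ℝ) :=
              Real.rpow_le_rpow_of_exponent_ge' (abs_nonneg _) h2 zero_le_one hp
          _ = |xs x.1| := Real.rpow_one _
      nlinarith [sq_nonneg (1 - |xs x.1|), abs_mul_abs_self (xs x.1)]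
    rw [map_sub, map_smul, hz1, hone, smul_eq_mul] at h1
    linarith
  -- the key estimate
  have hest : ∀ (y : E →L[ℝ] ℝ) (t : ℝ), ‖y‖ ≤ 1 → |t| ≤ 1 / p →
      |F.hat hp (xs + t • y) f| ^ p ≤ 1 + p * t * X0 y + p ^ 2 * t ^ 2 := by
    intro y t hy ht
    refine (hdom (xs + t • y)).trans ?_
    have h1 := hmono (absP p hp (xs + t • y))
      (co 1 + (p * t) • (lin xs * lin y) + (p ^ 2 * t ^ 2) • co 1 +
        ((6 : ℝ) ^ p) • (co 1 - absP p hp xs)) (fun x => by
        show |xs x.1 + t * y x.1| ^ p ≤ 1 + (p * t) * (xs x.1 * y x.1) + (p ^ 2 * t ^ 2) * 1 +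
          6 ^ p * (1 - |xs x.1| ^ p)
        have := ptw p hp (xs x.1) (y x.1) t (hu x) (hb y hy x) ht
        linarith)
    refine h1.trans (le_of_eq ?_)
    rw [map_add, map_add, map_add, map_smul, map_smul, map_smul, map_sub, hone, hz1, hX0]
    simp only [smul_eq_mul]
    ring
  -- the barycentre is small on the annihilators of finite sets
  have hsmall : ∀ η : ℝ, 0 < η → ∃ I : Finset E, ∀ y : E →L[ℝ] ℝ, ‖y‖ ≤ 1 →
      (∀ x ∈ I, y x = 0) → |X0 y| ≤ η := by
    intro η hη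
    set τ : ℝ := min (1 / p) (η / (2 * p)) with hτ
    have hτ0 : 0 < τ := lt_min (by positivity) (by positivity)
    have hτ1 : τ ≤ 1 / p := min_le_left _ _
    have hτ2 : τ ≤ η / (2 * p) := min_le_right _ _
    set ε : ℝ := min 1 (η * τ / 2) with hε
    have hε0 : 0 < ε := lt_min one_pos (by positivity)
    have hε1 : ε ≤ 1 := min_le_left _ _
    have hε2 : ε ≤ η * τ / 2 := min_le_right _ _
    obtain ⟨I, hI⟩ := F.cont hp f xs hxs ε hε0
    refine ⟨I, ?_⟩
    intro y hy hyI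
    have key : ∀ t : ℝ, |t| = τ → -(p * ε) ≤ p * t * X0 y + p ^ 2 * t ^ 2 := by
      intro t ht
      have h1 := hest y t hy (by rw [ht]; exact hτ1)
      have h2 := hI (t • y) (by
        rw [norm_smul, Real.norm_eq_abs, ht]
        calc τ * ‖y‖ ≤ 1 * 1 := mul_le_mul (hτ1.trans h1p) hy (norm_nonneg _) zero_le_one
          _ = 1 := mul_one 1) (by
        intro x hx
        show t * y x = 0
        rw [hyI x hx, mul_zero])
      rw [hval] at h2
      have h3 : 1 + -ε ≤ |F.hat hp (xs + t • y) f| := by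
        have := (abs_le.mp h2).1
        exact (by linarith : 1 + -ε ≤ F.hat hp (xs + t • y) f).trans (le_abs_self _)
      have h4 : 1 + p * (-ε) ≤ (1 + -ε) ^ p :=
        one_add_mul_self_le_rpow_one_add (by linarith) hp
      have h5 : (1 + -ε) ^ p ≤ |F.hat hp (xs + t • y) f| ^ p :=
        Real.rpow_le_rpow (by linarith) h3 hp0.le
      linarith
    have k1 := key τ (abs_of_pos hτ0)
    have k2 := key (-τ) (by rw [abs_neg]; exact abs_of_pos hτ0)
    have hpτ : 0 < p * τ := by positivity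
    have e1 : p * ε + p ^ 2 * τ ^ 2 ≤ p * τ * η := by
      have a1 : p * ε ≤ p * (η * τ / 2) := by gcongr
      have a2 : p ^ 2 * τ ^ 2 ≤ p * τ * (η / 2) := by
        have a3 : p * τ ≤ η / 2 := by
          calc p * τ ≤ p * (η / (2 * p)) := by gcongr
            _ = η / 2 := by field_simp
        calc p ^ 2 * τ ^ 2 = (p * τ) * (p * τ) := by ring
          _ ≤ p * τ * (η / 2) := by gcongr
      linarith
    rw [abs_le]
    constructor
    · by_contra hneg
      push Not at hneg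
      have : p * τ * X0 y < p * τ * (-η) := by
        apply mul_lt_mul_of_pos_left hneg hpτ
      nlinarith
    · by_contra hneg
      push Not at hneg
      have : p * τ * η < p * τ * X0 y := by
        apply mul_lt_mul_of_pos_left hneg hpτ
      nlinarith
  -- so the barycentre is in the canonical image
  obtain ⟨x, hx⟩ := mem_range_of_near (NormedSpace.inclusionInDoubleDualLi ℝ (E := E)) X0 (by
    intro η hη
    obtain ⟨I, hI⟩ := hsmall η hη
    obtain ⟨c, hc⟩ := near_span X0 I (fun x => NormedSpace.inclusionInDoubleDual ℝ E x) η hη.le hI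
    refine ⟨∑ x ∈ I, c x • x, ?_⟩
    have h1 : NormedSpace.inclusionInDoubleDualLi ℝ (E := E) (∑ x ∈ I, c x • x) =
        ∑ x ∈ I, c x • NormedSpace.inclusionInDoubleDual ℝ E x := by
      apply ContinuousLinearMap.ext
      intro y
      have e1 : (NormedSpace.inclusionInDoubleDualLi ℝ (E := E) (∑ x ∈ I, c x • x)) y =
        y (∑ x ∈ I, c x • x) := rfl
      rw [e1, map_sum, ContinuousLinearMap.sum_apply]
      apply Finset.sum_congr rfl
      intro x _
      rw [map_smul]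
      rfl
    rw [h1]
    exact hc)
  have hxn : ‖x‖ ≤ 1 := by
    rw [← (NormedSpace.inclusionInDoubleDualLi ℝ (E := E)).norm_map, hx]
    exact hX0n
  refine ⟨x, hxn, ?_⟩
  have hle : xs x ≤ 1 := by
    calc xs x ≤ |xs x| := le_abs_self _
      _ ≤ ‖xs‖ * ‖x‖ := xs.le_opNorm x
      _ ≤ 1 * 1 := mul_le_mul hxs hxn (norm_nonneg _) zero_le_one
      _ = 1 := mul_one 1
  have hge : 1 ≤ xs x := by
    have : X0 xs = xs x := by rw [← hx]; rfl
    rw [← this]
    exact hX0x
  exact le_antisymm hle hge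

/-- Norm attainment of a functional and of its extension to a lattice homomorphism. -/
theorem attains_iff [CompleteSpace E] (F : IsFree p E L δ) (hp : 1 ≤ p) (xs : E →L[ℝ] ℝ)
    (φ : L →L[ℝ] ℝ) (hφ : IsLatHom φ) (hext : ∀ x, φ (δ x) = xs x) :
    Attains xs ↔ Attains φ := by
  have hφh : φ = F.hat hp xs := F.hat_unique hp xs φ hφ hext
  have hnorm : ‖φ‖ = ‖xs‖ := by
    apply le_antisymm
    · rw [hφh]; exact F.hat_norm hp xs
    · apply ContinuousLinearMap.opNorm_le_bound _ (norm_nonneg _)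
      intro x
      rw [← hext x]
      calc ‖φ (δ x)‖ ≤ ‖φ‖ * ‖δ x‖ := φ.le_opNorm _
        _ = ‖φ‖ * ‖x‖ := by rw [δ.norm_map]
  constructor
  · rintro ⟨x, hx, hx2⟩
    exact ⟨δ x, by rw [δ.norm_map]; exact hx, by rw [hext, hx2, hnorm]⟩
  · rintro ⟨f, hf, hf2⟩
    rcases eq_or_ne (‖xs‖) 0 with h0 | h0
    · refine ⟨0, by simp, ?_⟩
      rw [map_zero, h0]
    have hpos : 0 < ‖xs‖ := lt_of_le_of_ne (norm_nonneg _) (Ne.symm h0)
    obtain ⟨x, hx1, hx2⟩ := core F hp (‖xs‖⁻¹ • xs) (by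
      rw [norm_smul, norm_inv, norm_norm, inv_mul_cancel₀ h0]) f hf (by
      rw [F.hat_smul hp xs _ (by positivity), ← hφh, hf2, hnorm, inv_mul_cancel₀ h0])
    refine ⟨x, hx1, ?_⟩
    have h1 : ‖xs‖⁻¹ * xs x = 1 := hx2
    field_simp at h1
    linarith

end

end Pool.Agent.Q199.FN
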