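import Pool.Agent.Q199.FN.Defs

set_option autoImplicit false

namespace Pool.Agent.Q199.FN

open scoped BoundedContinuousFunction

universe u

/-- bounded continuous functions are `p`-convex with constant one. -/
theorem pconvex_bcf (p : ℝ) (hp : 1 ≤ p) (K : Type u) [TopologicalSpace K] :
    PConvexOne p (K →ᵇ ℝ) := by
  intro n x z hz
  have hp0 : 0 < p := by linarith
  set c : ℝ := (∑ i, ‖x i‖ ^ p) ^ (1 / p) with hc
  have hc0 : 0 ≤ c := Real.rpow_nonneg (Finset.sum_nonneg fun i _ => Real.rpow_nonneg (norm_nonneg _) _) _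
  have h1 : z ≤ BoundedContinuousFunction.const K c := by
    apply hz.2
    rintro w ⟨a, ha, rfl⟩
    intro k
    have h2 := ha (fun i => x i k)
    have h3 : (∑ i, a i • x i) k = ∑ i, a i * x i k := by
      simp [BoundedContinuousFunction.coe_sum]
    show (∑ i, a i • x i) k ≤ c
    rw [h3]
    refine h2.trans ?_
    rw [hc]
    apply Real.rpow_le_rpow (Finset.sum_nonneg fun i _ => Real.rpow_nonneg (abs_nonneg _) _) _
      (by positivity)
    apply Finset.sum_le_sum
    intro i _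
    apply Real.rpow_le_rpow (abs_nonneg _) _ hp0.le
    exact (x i).norm_coe_le_norm k
  have h0 : 0 ≤ z := by
    apply hz.1
    refine ⟨0, ?_, by simp⟩
    intro t
    simp only [Pi.zero_apply, zero_mul, Finset.sum_const_zero]
    exact Real.rpow_nonneg (Finset.sum_nonneg fun i _ => Real.rpow_nonneg (abs_nonneg _) _) _
  rw [BoundedContinuousFunction.norm_le hc0]
  intro k
  have ha : (0 : ℝ) ≤ z k := h0 k
  have hb : z k ≤ c := h1 k
  rw [Real.norm_eq_abs, abs_of_nonneg ha]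
  exact hb

/-- `ℓ_p^n`, with the coordinatewise order. -/
def LN (p : ENNReal) (ι : Type u) : Type u := PiLp p (fun _ : ι => ℝ)

variable {p : ENNReal} [Fact (1 ≤ p)] {ι : Type u} [Fintype ι]

noncomputable instance : NormedAddCommGroup (LN p ι) :=
  inferInstanceAs (NormedAddCommGroup (PiLp p (fun _ : ι => ℝ)))

noncomputable instance : NormedSpace ℝ (LN p ι) :=
  inferInstanceAs (NormedSpace ℝ (PiLp p (fun _ : ι => ℝ)))

instance : CompleteSpace (LN p ι) :=
  inferInstanceAs (CompleteSpace (PiLp p (fun _ : ι => ℝ)))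

/-- coordinates -/
def LN.co {p : ENNReal} {ι : Type u} (x : LN p ι) : ι → ℝ := WithLp.ofLp (p := p) x

/-- from coordinates -/
def LN.mk {p : ENNReal} {ι : Type u} (x : ι → ℝ) : LN p ι := WithLp.toLp p x

omit [Fact (1 ≤ p)] [Fintype ι] in
theorem LN.co_mk (x : ι → ℝ) : (LN.mk x : LN p ι).co = x := rfl

omit [Fact (1 ≤ p)] [Fintype ι] in
theorem LN.co_inj : Function.Injective (LN.co : LN p ι → ι → ℝ) := by
  intro x y h
  exact (WithLp.ofLp_injective p) h

instance : Max (LN p ι) := ⟨fun x y => LN.mk (x.co ⊔ y.co)⟩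
instance : Min (LN p ι) := ⟨fun x y => LN.mk (x.co ⊓ y.co)⟩
instance : LE (LN p ι) := ⟨fun x y => x.co ≤ y.co⟩
instance : LT (LN p ι) := ⟨fun x y => x.co < y.co⟩

instance : Lattice (LN p ι) :=
  Function.Injective.lattice LN.co LN.co_inj (fun {a b} => Iff.rfl) (fun {a b} => Iff.rfl) (fun a b => rfl) (fun a b => rfl)

theorem LN.co_add (x y : LN p ι) : (x + y).co = x.co + y.co := rfl
theorem LN.co_smul (c : ℝ) (x : LN p ι) : (c • x).co = c • x.co := rfl
theorem LN.co_neg (x : LN p ι) : (-x).co = - x.co := rfl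
theorem LN.le_def (x y : LN p ι) : x ≤ y ↔ ∀ i, x.co i ≤ y.co i := Iff.rfl

instance : IsOrderedAddMonoid (LN p ι) where
  add_le_add_left := by
    intro a b h c i
    have := h i
    simp only [LN.co_add, Pi.add_apply]
    linarith

theorem LN.co_abs (x : LN p ι) (i : ι) : |x|.co i = |x.co i| := rfl

theorem LN.norm_eq (hp : p ≠ ⊤) (x : LN p ι) :
    ‖x‖ = (∑ i, |x.co i| ^ p.toReal) ^ (1 / p.toReal) := by
  have h1 : 1 ≤ p := Fact.out
  have h0 : 0 < p.toReal := ENNReal.toReal_pos (by intro h; rw [h] at h1; simp at h1) hp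
  exact PiLp.norm_eq_sum h0 x

theorem LN.mono (hp : p ≠ ⊤) (x y : LN p ι) (h : ∀ i, |x.co i| ≤ |y.co i|) : ‖x‖ ≤ ‖y‖ := by
  rw [LN.norm_eq hp, LN.norm_eq hp]
  have h1 : 0 ≤ p.toReal := ENNReal.toReal_nonneg
  apply Real.rpow_le_rpow (Finset.sum_nonneg fun i _ => Real.rpow_nonneg (abs_nonneg _) _) _
    (by positivity)
  apply Finset.sum_le_sum
  intro i _
  exact Real.rpow_le_rpow (abs_nonneg _) (h i) h1

theorem LN.solid (hp : p ≠ ⊤) : HasSolidNorm (LN p ι) :=
  ⟨fun x y h => LN.mono hp x y (fun i => h i)⟩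

theorem LN.co_sum {n : ℕ} (f : Fin n → LN p ι) (j : ι) :
    (∑ i, f i).co j = ∑ i, (f i).co j := by
  let g : LN p ι →+ ℝ := ⟨⟨fun x => x.co j, rfl⟩, fun x y => rfl⟩
  exact map_sum g f Finset.univ

/-- `ℓ_p^n` is `p`-convex with constant one. -/
theorem LN.pconvex (hp : p ≠ ⊤) : PConvexOne p.toReal (LN p ι) := by
  intro n x z hz
  have h1p : 1 ≤ p := Fact.out
  have hp0 : 0 < p.toReal :=
    ENNReal.toReal_pos (by intro h; rw [h] at h1p; simp at h1p) hp
  let w : LN p ι := LN.mk (fun j => (∑ i, |(x i).co j| ^ p.toReal) ^ (1 / p.toReal))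
  have hw : ∀ j, w.co j = (∑ i, |(x i).co j| ^ p.toReal) ^ (1 / p.toReal) := fun j => rfl
  have hs : ∀ j, 0 ≤ ∑ i, |(x i).co j| ^ p.toReal := fun j =>
    Finset.sum_nonneg fun i _ => Real.rpow_nonneg (abs_nonneg _) _
  have hzw : z ≤ w := by
    apply hz.2
    rintro v ⟨a, ha, rfl⟩ j
    rw [LN.co_sum, hw]
    exact ha (fun i => (x i).co j)
  have hz0 : (0 : LN p ι) ≤ z := by
    apply hz.1
    refine ⟨0, ?_, by simp⟩
    intro t
    simp only [Pi.zero_apply, zero_mul, Finset.sum_const_zero]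
    exact Real.rpow_nonneg (Finset.sum_nonneg fun i _ => Real.rpow_nonneg (abs_nonneg _) _) _
  have h2 : ‖z‖ ≤ ‖w‖ := by
    apply LN.mono hp
    intro i
    have h3 : 0 ≤ z.co i := hz0 i
    have h4 : z.co i ≤ w.co i := hzw i
    rw [abs_of_nonneg h3, abs_of_nonneg (h3.trans h4)]
    exact h4
  refine h2.trans (le_of_eq ?_)
  rw [LN.norm_eq hp]
  congr 1
  have h5 : ∀ j, |w.co j| ^ p.toReal = ∑ i, |(x i).co j| ^ p.toReal := by
    intro j
    rw [hw, abs_of_nonneg (Real.rpow_nonneg (hs j) _), ← Real.rpow_mul (hs j),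
      one_div_mul_cancel hp0.ne', Real.rpow_one]
  rw [Finset.sum_congr rfl (fun j _ => h5 j), Finset.sum_comm]
  apply Finset.sum_congr rfl
  intro i _
  rw [LN.norm_eq hp, ← Real.rpow_mul (Finset.sum_nonneg fun j _ =>
    Real.rpow_nonneg (abs_nonneg _) _), one_div_mul_cancel hp0.ne', Real.rpow_one]

end Pool.Agent.Q199.FN
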